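import Pool.Agent.V5helper38.EP.Bas

/-!
# Project EP, job STG: finiteness and stages of the explicit model of a run
-/

set_option autoImplicit false

namespace Pool.Agent.V5helper61.EP

open Pool.Agent.V5helper38.EP

theorem fin_Ex (T K : ℕ) (s : ℕ → ℕ → ℕ) : Finite {v : Wd // Ex T K s v} := by
  have h1 : (Set.range (fun p : Fin (T + 1) × Bool => Wd.sp p.1.1 p.2)).Finite := Set.finite_range _
  have h2 : (Set.range (fun p : (Σ a : Fin (T + 1) × Fin K, Fin (s a.1.1 a.2.1 + 1)) =>
      Wd.ce p.1.1.1 p.1.2.1 p.2.1)).Finite := Set.finite_range _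
  refine Set.Finite.to_subtype ((h1.union h2).subset ?_)
  intro v hv
  cases v with
  | sp t b =>
    left
    have ht : t ≤ T := by
      have h : Ex T K s (Wd.sp t b) := hv
      simp only [Ex] at h
      split_ifs at h <;> omega
    exact ⟨(⟨t, by omega⟩, b), rfl⟩
  | ce t r i =>
    right
    have h : Ex T K s (Wd.ce t r i) := hv
    simp only [Ex] at h
    exact ⟨⟨(⟨t, by omega⟩, ⟨r, by omega⟩), ⟨i, by show i < s t r + 1; omega⟩⟩, rfl⟩

theorem stg_zero (T K : ℕ) (s : ℕ → ℕ → ℕ) : stg T K 0 s = Set.univ := by
  ext ⟨v, hv⟩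
  cases v with
  | sp t b => simp [stg]
  | ce t r i =>
    simp only [Ex] at hv
    simp only [stg, Set.mem_ofPred_eq, Set.mem_univ, iff_true]
    omega

theorem R0 (k T K : ℕ) (q : ℕ → ℕ) (s : ℕ → ℕ → ℕ) (v w : {v : Wd // Ex T K s v}) :
    ((mdl k T K q s).R 0).r v w ↔ cl0 v.1 = cl0 w.1 := by
  have h : (mdl k T K q s).R 0 = Setoid.ker (fun v => cl0 v.1) := by
    show (if (0 : Fin (k + 2)) = 0 then Setoid.ker (fun v : {v : Wd // Ex T K s v} => cl0 v.1) else
      if (0 : Fin (k + 2)) = 1 then Setoid.ker (fun v => cl1 v.1) else ⊥) = _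
    rw [if_pos rfl]
  rw [h]
  rfl

theorem R1 (k T K : ℕ) (q : ℕ → ℕ) (s : ℕ → ℕ → ℕ) (v w : {v : Wd // Ex T K s v}) :
    ((mdl k T K q s).R 1).r v w ↔ cl1 v.1 = cl1 w.1 := by
  have h : (1 : Fin (k + 2)) ≠ 0 := by
    intro h
    have := congrArg Fin.val h
    simp at this
  have h' : (mdl k T K q s).R 1 = Setoid.ker (fun v => cl1 v.1) := by
    show (if (1 : Fin (k + 2)) = 0 then Setoid.ker (fun v : {v : Wd // Ex T K s v} => cl0 v.1) else
      if (1 : Fin (k + 2)) = 1 then Setoid.ker (fun v => cl1 v.1) else ⊥) = _
    rw [if_neg h, if_pos rfl]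
  rw [h']
  rfl

theorem step_stg (k T K : ℕ) (q : ℕ → ℕ) (s : ℕ → ℕ → ℕ) (n : ℕ) :
    {v | v ∈ stg T K n s ∧ sat (mdl k T K q s) (alpha K) (stg T K n s) v} = stg T K (n + 1) s := by
  ext ⟨v, hv⟩
  simp only [Set.mem_ofPred_eq]
  rw [sat_alpha]
  cases v with
  | sp t b =>
    constructor
    · intro _
      simp [stg]
    · intro _
      refine ⟨by simp [stg], ?_⟩
      intro r hr i hi hw
      exfalso
      simp only [mdl, Set.mem_ofPred_eq, ltr] at hw
      rcases hw with h | ⟨h, _⟩ | ⟨h, _⟩ | ⟨h, _⟩ | ⟨r', h, _⟩ <;> omega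
  | ce t r i =>
    have hv' := hv
    simp only [Ex] at hv'
    constructor
    · rintro ⟨h1, h2⟩
      have h3 := h2 r hv'.2.1 (i % 4) (Nat.mod_lt _ (by norm_num)) (by
        simp only [mdl, Set.mem_ofPred_eq, ltr]
        omega)
      obtain ⟨⟨u, hu⟩, huD, huR, huV⟩ := h3
      simp only [mdl, Set.mem_ofPred_eq] at huV
      have hui : u = .ce t r (i + 1) := by
        by_cases hodd : (i % 4) % 2 = 1
        · have ha : (ag (i % 4) : Fin (k + 2)) = 1 := by unfold ag; rw [if_pos hodd]
          rw [ha, R1] at huR
          cases u with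
          | sp t' b' => simp [cl1] at huR
          | ce t' r' i' =>
            simp only [cl1, Prod.mk.injEq, true_and] at huR
            simp only [ltr] at huV
            obtain ⟨e1, e2, e3⟩ := huR
            subst e1 e2
            congr 1
            omega
        · have ha : (ag (i % 4) : Fin (k + 2)) = 0 := by unfold ag; rw [if_neg hodd]
          rw [ha, R0] at huR
          cases u with
          | sp t' b' =>
            simp only [cl0] at huR
            rw [if_neg (by omega)] at huR
            simp at huR
          | ce t' r' i' =>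
            simp only [cl0] at huR
            rw [if_neg (by omega)] at huR
            split_ifs at huR with h'
            · simp at huR
            · simp only [Prod.mk.injEq, true_and] at huR
              simp only [ltr] at huV
              obtain ⟨e1, e2, e3⟩ := huR
              subst e1 e2
              congr 1
              omega
      subst hui
      simp only [stg, Set.mem_ofPred_eq] at huD ⊢
      omega
    · intro h
      simp only [stg, Set.mem_ofPred_eq] at h
      refine ⟨by simp only [stg, Set.mem_ofPred_eq]; omega, ?_⟩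
      intro r' hr' i' hi' hw
      simp only [mdl, Set.mem_ofPred_eq, ltr] at hw
      have e1 : r = r' := by omega
      subst e1
      have e2 : i' = i % 4 := by omega
      subst e2
      refine ⟨⟨.ce t r (i + 1), by simp only [Ex]; omega⟩, ?_, ?_, ?_⟩
      · simp only [stg, Set.mem_ofPred_eq]; omega
      · by_cases hodd : (i % 4) % 2 = 1
        · have ha : (ag (i % 4) : Fin (k + 2)) = 1 := by unfold ag; rw [if_pos hodd]
          rw [ha, R1]
          simp only [cl1, Prod.mk.injEq, true_and]
          omega
        · have ha : (ag (i % 4) : Fin (k + 2)) = 0 := by unfold ag; rw [if_neg hodd]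
          rw [ha, R0]
          simp only [cl0]
          rw [if_neg (by omega), if_neg (by omega)]
          simp only [Prod.mk.injEq, true_and]
          omega
      · simp only [mdl, Set.mem_ofPred_eq, ltr]
        omega

theorem t_STG : S_STG := by
  intro k T K q s
  refine ⟨fin_Ex T K s, ?_, step_stg k T K q s, ?_⟩
  · intro n
    induction n with
    | zero => simp [stg_zero]
    | succ n ih =>
      rw [Function.iterate_succ_apply', ih]
      exact step_stg k T K q s n
  · intro n r t b h hr
    rw [sat_see]
    constructor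
    · rintro ⟨⟨u, hu⟩, huD, huR, huV⟩
      rw [R0] at huR
      simp only [mdl, Set.mem_ofPred_eq] at huV
      cases u with
      | sp t' b' =>
        exfalso
        simp only [ltr] at huV
        rcases huV with h | ⟨h, _⟩ | ⟨h, _⟩ | ⟨h, _⟩ | ⟨r', h, _⟩ <;> omega
      | ce t' r' i' =>
        simp only [ltr] at huV
        simp only [cl0] at huR
        simp only [Ex] at hu
        simp only [stg, Set.mem_ofPred_eq] at huD
        split_ifs at huR with h'
        · simp only [Prod.mk.injEq, true_and, and_true] at huR
          subst huR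
          have e1 : r = r' := by omega
          subst e1
          omega
        · simp at huR
    · intro hn
      have ht : t ≤ T := by
        simp only [Ex] at h
        split_ifs at h <;> omega
      refine ⟨⟨.ce t r 1, by simp only [Ex]; omega⟩, ?_, ?_, ?_⟩
      · simp only [stg, Set.mem_ofPred_eq]; omega
      · rw [R0]
        simp [cl0]
      · simp only [mdl, Set.mem_ofPred_eq, ltr]

end Pool.Agent.V5helper61.EP
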